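import Pool.Agent.P.MP_17f8fc_co.Upper

open Pool.Agent.P.MP_17f8fc_co

/-- The regular decagon is a convex domain whose smallest translative cloud has exactly
ten translates. -/
theorem Pool.Agent.Results.MP_17f8fc_co.Decagon.result :
    IsConvexDomain decagon ∧ IsLeast {n : ℕ | ∃ x : Fin n → Plane, IsCloud decagon x} 10 :=
  ⟨dec_domain, ⟨_, cloud_ten⟩, fun _ ⟨_, h⟩ => h.ten_le⟩
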